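import Mathlib

set_option autoImplicit false

namespace Pool.Agent.Results.MP_020c1a_co.NotExactlyTranslates

/-- A `p`-singular family: `g * h⁻¹` has order divisible by `p` for all distinct members. -/
def PSingularFamily {G : Type*} [Group G] (p : ℕ) (F : Set G) : Prop :=
  ∀ g ∈ F, ∀ h ∈ F, g ≠ h → p ∣ orderOf (g * h⁻¹)

/-- A maximum `p`-singular family: no `p`-singular family has more elements. -/
def IsMaximumFamily {G : Type*} [Group G] (p : ℕ) (F : Set G) : Prop :=
  PSingularFamily p F ∧ ∀ F' : Set G, PSingularFamily p F' → F'.ncard ≤ F.ncard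

/-- The double-translate `g S h`. -/
def doubleTranslate {G : Type*} [Group G] (g : G) (S : Set G) (h : G) : Set G :=
  {y | ∃ s ∈ S, y = g * s * h}

/-- The maximum `p`-singular families of `G` are exactly the double-translates of the Sylow
`p`-subgroups of `G`. -/
def MaximumAreTranslates (p : ℕ) (G : Type*) [Group G] : Prop :=
  ∀ F : Set G, IsMaximumFamily p F ↔
    ∃ (P : Sylow p G) (g h : G), F = doubleTranslate g (P : Set G) h

section general

variable {G : Type*} [Group G] {p : ℕ}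

lemma dvd_orderOf_of_mem [Fact p.Prime] {P : Subgroup G} (hP : IsPGroup p P) {x : G}
    (hx : x ∈ P) (h1 : x ≠ 1) : p ∣ orderOf x := by
  obtain ⟨k, hk⟩ := IsPGroup.iff_orderOf.mp hP ⟨x, hx⟩
  rw [Subgroup.orderOf_mk] at hk
  rcases k with _ | k
  · rw [pow_zero, orderOf_eq_one_iff] at hk
    exact absurd hk h1
  · rw [hk, pow_succ]
    exact dvd_mul_left _ _

lemma dvd_orderOf_mul [Fact p.Prime] {z w : G} (hz : ∀ g : G, z * g = g * z)
    (hzp : (orderOf z).Coprime p) (hw : p ∣ orderOf w) : p ∣ orderOf (z * w) := by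
  set m := orderOf (z * w) with hm
  have h1 : z ^ m * w ^ m = 1 := by
    rw [← (show Commute z w from hz w).mul_pow, hm, pow_orderOf_eq_one]
  have h2 : w ^ (m * orderOf z) = 1 := by
    have h3 : w ^ m = (z ^ m)⁻¹ := eq_inv_of_mul_eq_one_right h1
    rw [pow_mul, h3, inv_pow, ← pow_mul, mul_comm m, pow_mul, pow_orderOf_eq_one, one_pow, inv_one]
  have h4 : p ∣ m * orderOf z := hw.trans (orderOf_dvd_of_pow_eq_one h2)
  exact hzp.symm.dvd_of_dvd_mul_right h4

/-- General obstruction: a central `z ≠ 1` of order prime to `p` and a nontrivial Sylow. -/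
lemma obstruction [Finite G] [Fact p.Prime] {z x₀ : G} (hz : ∀ g : G, z * g = g * z)
    (hz1 : z ≠ 1) (hzp : (orderOf z).Coprime p) (hx1 : x₀ ≠ 1) (hxp : x₀ ^ p = 1) :
    ¬ MaximumAreTranslates p G := by
  intro hmax
  have hpg : IsPGroup p (Subgroup.zpowers x₀) := by
    apply IsPGroup.of_card (n := 1)
    rw [Nat.card_zpowers, orderOf_eq_prime hxp hx1, pow_one]
  obtain ⟨P, hP⟩ := hpg.exists_le_sylow
  have hx₀ : x₀ ∈ P := hP (Subgroup.mem_zpowers x₀)
  have hzP : z ∉ P := by
    intro hzP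
    have h1 := dvd_orderOf_of_mem P.isPGroup' hzP hz1
    have h2 := Nat.Coprime.eq_one_of_dvd hzp.symm h1
    exact (Fact.out : p.Prime).one_lt.ne' h2
  have hzx : z * x₀ ∉ P := fun h => hzP (by
    have := P.mul_mem h (P.inv_mem hx₀)
    rw [mul_inv_cancel_right] at this
    exact this)
  -- the modified family
  set F : Set G := insert (z * x₀) ((P : Set G) \ {x₀}) with hF
  have hsing : PSingularFamily p F := by
    rintro g (rfl | ⟨hg, hg'⟩) h (rfl | ⟨hh, hh'⟩) hne
    · exact absurd rfl hne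
    · have e : z * x₀ * h⁻¹ = z * (x₀ * h⁻¹) := mul_assoc _ _ _
      rw [e]
      refine dvd_orderOf_mul hz hzp (dvd_orderOf_of_mem P.isPGroup' (P.mul_mem hx₀ (P.inv_mem hh)) ?_)
      intro h1
      exact hh' (mul_inv_eq_one.mp h1).symm
    · have e : g * (z * x₀)⁻¹ = z⁻¹ * (g * x₀⁻¹) := by
        rw [mul_inv_rev]
        have : x₀⁻¹ * z⁻¹ = z⁻¹ * x₀⁻¹ := by
          rw [← mul_inv_rev, ← mul_inv_rev, hz]
        rw [this, ← mul_assoc, ← mul_assoc]
        congr 1
        have := hz g
        exact (eq_inv_mul_iff_mul_eq.mpr (by rw [← mul_assoc, this, mul_assoc, mul_inv_cancel, mul_one]))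
      rw [e]
      refine dvd_orderOf_mul ?_ ?_ (dvd_orderOf_of_mem P.isPGroup' (P.mul_mem hg (P.inv_mem hx₀)) ?_)
      · intro a
        rw [inv_mul_eq_iff_eq_mul, ← mul_assoc, hz, mul_assoc, mul_inv_cancel, mul_one]
      · rwa [orderOf_inv]
      · intro h1
        exact hg' (mul_inv_eq_one.mp h1)
    · refine dvd_orderOf_of_mem P.isPGroup' (P.mul_mem hg (P.inv_mem hh)) ?_
      intro h1
      exact hne (mul_inv_eq_one.mp h1)
  have hcard : F.ncard = (P : Set G).ncard := by
    rw [hF, Set.ncard_insert_of_notMem (fun h => hzx h.1) (Set.toFinite _)]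
    exact Set.ncard_sdiff_singleton_add_one hx₀ (Set.toFinite _)
  -- `P` itself is maximum, hence so is `F`
  have hPmax : IsMaximumFamily p (P : Set G) := (hmax _).mpr ⟨P, 1, 1, by
    ext y
    constructor
    · intro hy; exact ⟨y, hy, by simp⟩
    · rintro ⟨s, hs, rfl⟩; simpa using hs⟩
  have hFmax : IsMaximumFamily p F := ⟨hsing, fun F' hF' => by rw [hcard]; exact hPmax.2 F' hF'⟩
  obtain ⟨Q, g, h, hQ⟩ := (hmax F).mp hFmax
  have h1F : (1 : G) ∈ F := Or.inr ⟨P.one_mem, fun h => hx1 h.symm⟩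
  rw [hQ] at h1F
  obtain ⟨s, hs, hs1⟩ := h1F
  have hzF : z * x₀ ∈ F := Set.mem_insert _ _
  rw [hQ] at hzF
  obtain ⟨t, ht, ht1⟩ := hzF
  -- `z * x₀` is conjugate to an element of `Q`
  have hh : h = s⁻¹ * g⁻¹ := by
    have : h = (g * s)⁻¹ := (inv_eq_of_mul_eq_one_right hs1.symm).symm
    rw [this, mul_inv_rev]
  have hc : z * x₀ = g * (t * s⁻¹) * g⁻¹ := by
    rw [ht1, hh]; group
  -- hence of `p`-power order
  obtain ⟨k, hk⟩ := IsPGroup.iff_orderOf.mp Q.isPGroup' ⟨t * s⁻¹, Q.mul_mem ht (Q.inv_mem hs)⟩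
  rw [Subgroup.orderOf_mk] at hk
  have h3 : (z * x₀) ^ (p ^ (k + 1)) = 1 := by
    rw [hc, conj_pow, pow_succ, pow_mul, ← hk, pow_orderOf_eq_one]
    simp
  rw [(show Commute z x₀ from hz x₀).mul_pow] at h3
  have h4 : x₀ ^ (p ^ (k + 1)) = 1 := by
    rw [pow_succ, mul_comm, pow_mul, hxp, one_pow]
  rw [h4, mul_one] at h3
  have h5 : orderOf z ∣ p ^ (k + 1) := orderOf_dvd_of_pow_eq_one h3
  have h6 : orderOf z = 1 := Nat.Coprime.eq_one_of_dvd (hzp.pow_right _) h5
  exact hz1 (orderOf_eq_one_iff.mp h6)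

end general

/-- **Main result.** For every prime `p`, every finite field `K` of characteristic `p` with more
than two elements and every `n ≥ 2`, it is false that the maximum `p`-singular families of
`GL_n(K)` are exactly the double-translates of its Sylow `p`-subgroups. -/
theorem result (p : ℕ) [Fact p.Prime] (K : Type*) [Field K] [Finite K] [CharP K p]
    (hK : 2 < Nat.card K) (n : ℕ) (hn : 2 ≤ n) :
    ¬ MaximumAreTranslates p (GL (Fin n) K) := by
  classical
  have : Fintype K := Fintype.ofFinite K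
  -- a unit different from one
  obtain ⟨u, hu⟩ : ∃ u : Kˣ, u ≠ 1 := by
    have h1 : 1 < Nat.card Kˣ := by
      rw [Nat.card_units]; omega
    have := (Finite.one_lt_card_iff_nontrivial (α := Kˣ)).mp h1
    exact exists_ne 1
  have h0 : (⟨0, by omega⟩ : Fin n) ≠ ⟨1, by omega⟩ := by
    intro h; simp at h
  have : Nonempty (Fin n) := ⟨⟨0, by omega⟩⟩
  set T : GL (Fin n) K := Matrix.SpecialLinearGroup.toGL
    (⟨Matrix.transvection ⟨0, by omega⟩ ⟨1, by omega⟩ 1, Matrix.det_transvection_of_ne _ _ h0 1⟩ :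
      Matrix.SpecialLinearGroup (Fin n) K) with hT
  have hTval : (T : Matrix (Fin n) (Fin n) K) =
      Matrix.transvection ⟨0, by omega⟩ ⟨1, by omega⟩ 1 := rfl
  have hpK : p ∣ Fintype.card K :=
    (CharP.cast_eq_zero_iff K p (Fintype.card K)).mp (FiniteField.cast_card_eq_zero K)
  refine obstruction (z := Matrix.GeneralLinearGroup.scalar (Fin n) u) (x₀ := T) ?_ ?_ ?_ ?_ ?_
  · intro g
    exact Matrix.GeneralLinearGroup.scalar_commute u g
  · intro h
    apply hu
    have h2 : Matrix.scalar (Fin n) (u : K) = Matrix.scalar (Fin n) 1 := by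
      have := congrArg (fun A : GL (Fin n) K => (A : Matrix (Fin n) (Fin n) K)) h
      simpa [Matrix.GeneralLinearGroup.coe_scalar] using this
    exact Units.ext (Matrix.scalar_inj.mp h2)
  · have h1 : orderOf (Matrix.GeneralLinearGroup.scalar (Fin n) u) ∣ Fintype.card K - 1 :=
      (orderOf_map_dvd (Matrix.GeneralLinearGroup.scalar (Fin n)) u).trans
        (by rw [← Fintype.card_units]; exact orderOf_dvd_card)
    refine Nat.Coprime.coprime_dvd_left h1 ?_
    refine Nat.Coprime.symm (((Fact.out : p.Prime).coprime_iff_not_dvd).mpr ?_)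
    intro h2
    have h3 : p ∣ 1 := by
      have h4 := Nat.dvd_sub hpK h2
      have h5 : 0 < Fintype.card K := Fintype.card_pos
      rwa [Nat.sub_sub_self (by omega)] at h4
    exact (Fact.out : p.Prime).one_lt.ne' (Nat.dvd_one.mp h3)
  · intro h
    have h2 := congrArg (fun A : GL (Fin n) K => (A : Matrix (Fin n) (Fin n) K)
      ⟨0, by omega⟩ ⟨1, by omega⟩) h
    simp [hTval, Matrix.transvection, Matrix.one_apply_ne h0] at h2
  · have hpow : ∀ k : ℕ, (T : Matrix (Fin n) (Fin n) K) ^ k =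
        Matrix.transvection ⟨0, by omega⟩ ⟨1, by omega⟩ (k : K) := by
      intro k
      induction k with
      | zero => simp
      | succ k ih =>
        rw [pow_succ, ih, hTval, Matrix.transvection_mul_transvection_same _ _ h0]
        push_cast
        rfl
    apply Units.ext
    rw [Units.val_pow_eq_pow_val, hpow p, CharP.cast_eq_zero]
    simp

end Pool.Agent.Results.MP_020c1a_co.NotExactlyTranslates
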